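import Mathlib
import Pool.Agent.Helper97.SZ.Goals

/-!
Packet SZ-AV (project of helper97, MP_126465_gt): bilinear alternating maps as continuous alternating maps.
-/

set_option autoImplicit false

open Set Filter Topology Metric
open scoped ContDiff
open Pool.Agent.Helper91.SY Pool.Agent.Helper97.SZ

namespace Pool.Agent.Helper34.SZ

section
variable {E : Type} [NormedAddCommGroup E] [NormedSpace ℝ E]

/-- the alternatization of a bilinear map -/
noncomputable def altMap (b : E →L[ℝ] E →L[ℝ] ℝ) : E [⋀^Fin 2]→L[ℝ] ℝ where
  toFun m := (1 / 2) * (b (m 0) (m 1) - b (m 1) (m 0))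
  map_update_add' := by
    intro _ m i x y
    fin_cases i
    · have h0 : ∀ z : E, Function.update m (0 : Fin 2) z 0 = z := fun z => Function.update_self _ _ _
      have h1 : ∀ z : E, Function.update m (0 : Fin 2) z 1 = m 1 :=
        fun z => Function.update_of_ne (by simp) _ _
      simp only [Fin.zero_eta, h0, h1, map_add, add_apply]
      ring
    · have h0 : ∀ z : E, Function.update m (1 : Fin 2) z 1 = z := fun z => Function.update_self _ _ _
      have h1 : ∀ z : E, Function.update m (1 : Fin 2) z 0 = m 0 :=
        fun z => Function.update_of_ne (by simp) _ _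
      simp only [Fin.mk_one, h0, h1, map_add, add_apply]
      ring
  map_update_smul' := by
    intro _ m i c x
    fin_cases i
    · have h0 : ∀ z : E, Function.update m (0 : Fin 2) z 0 = z := fun z => Function.update_self _ _ _
      have h1 : ∀ z : E, Function.update m (0 : Fin 2) z 1 = m 1 :=
        fun z => Function.update_of_ne (by simp) _ _
      simp only [Fin.zero_eta, h0, h1, map_smul, smul_apply, smul_eq_mul]
      ring
    · have h0 : ∀ z : E, Function.update m (1 : Fin 2) z 1 = z := fun z => Function.update_self _ _ _
      have h1 : ∀ z : E, Function.update m (1 : Fin 2) z 0 = m 0 :=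
        fun z => Function.update_of_ne (by simp) _ _
      simp only [Fin.mk_one, h0, h1, map_smul, smul_apply, smul_eq_mul]
      ring
  cont := by
    have h0 : Continuous (fun m : Fin 2 → E => m 0) := continuous_apply 0
    have h1 : Continuous (fun m : Fin 2 → E => m 1) := continuous_apply 1
    exact continuous_const.mul
      (((b.continuous.comp h0).clm_apply h1).sub ((b.continuous.comp h1).clm_apply h0))
  map_eq_zero_of_eq' := by
    intro m i j hij hne
    have h01 : m 0 = m 1 := by
      fin_cases i <;> fin_cases j
      · exact absurd rfl hne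
      · exact hij
      · exact hij.symm
      · exact absurd rfl hne
    change (1 / 2) * (b (m 0) (m 1) - b (m 1) (m 0)) = 0
    rw [h01]; ring

theorem altMap_apply (b : E →L[ℝ] E →L[ℝ] ℝ) (m : Fin 2 → E) :
    altMap b m = (1 / 2) * (b (m 0) (m 1) - b (m 1) (m 0)) := rfl

/-- linear in the form -/
noncomputable def altLin : (E →L[ℝ] E →L[ℝ] ℝ) →ₗ[ℝ] (E [⋀^Fin 2]→L[ℝ] ℝ) where
  toFun := altMap
  map_add' := by
    intro b c
    ext m
    simp only [altMap_apply, ContinuousAlternatingMap.add_apply, add_apply]
    ring
  map_smul' := by
    intro r b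
    ext m
    simp only [altMap_apply, ContinuousAlternatingMap.smul_apply, smul_apply, smul_eq_mul,
      RingHom.id_apply]
    ring

end

theorem av : StmtAV := by
  intro n
  have hc := LinearMap.continuous_of_finiteDimensional (𝕜 := ℝ)
    (E := (V n →L[ℝ] V n →L[ℝ] ℝ)) (F' := (V n [⋀^Fin 2]→L[ℝ] ℝ)) (altLin (E := V n))
  refine ⟨⟨altLin (E := V n), hc⟩, ?_⟩
  intro b hb u v
  have hanti : b v u = - b u v := by
    have h := hb (u + v)
    simp only [map_add, add_apply] at h
    have h1 := hb u
    have h2 := hb v
    linarith
  change altMap b ![u, v] = b u v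
  rw [altMap_apply]
  simp only [Matrix.cons_val_zero, Matrix.cons_val_one, hanti]
  ring

end Pool.Agent.Helper34.SZ
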